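import Pool.Agent.R280.FBLOct
import Pool.Agent.R280.FBLNorm

/-!
# MP_93c18e_an, Q1

The norm of the free Banach lattice `FBL[E]` over an `L_1`-predual `E` with the Daugavet property is
octahedral. It suffices that the norm of the `L_1`-predual `E` is octahedral.
-/

set_option autoImplicit false

universe u v

namespace Pool.Agent.Results.MP_93c18e_an.FBLOctahedral

open Pool.Agent.R280.Lip Pool.Agent.R280.Oct Pool.Agent.R280.BLat MeasureTheory

/-- Let `E ≠ 0` be a Banach space whose dual is isometric to `L_1(μ)` for some measure `μ`. If `E`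
has the Daugavet property, then the norm of `FBL[E]` is octahedral; more generally it is enough that
the norm of `E` is octahedral. The first two statements recall that the elements of `FBL[E]` are
positively homogeneous functions `f` on `E*`, with
`‖f‖ = sup {∑ |f(x_i*)| : ∑ |x_i*(z)| ≤ 1 for ‖z‖ ≤ 1}`. -/
theorem result (E : Type u) [NormedAddCommGroup E] [NormedSpace ℝ E] [CompleteSpace E]
    [Nontrivial E] {Ω : Type v} [MeasurableSpace Ω] (μ : Measure Ω)
    (hpre : Nonempty (StrongDual ℝ E ≃ₗᵢ[ℝ] Lp ℝ 1 μ)) :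
    (∀ (f : (FBL E).Space) (c : ℝ) (u : StrongDual ℝ E), 0 ≤ c → f.fn (c • u) = c * f.fn u) ∧
    (∀ f : (FBL E).Space, IsLUB {r : ℝ | ∃ (n : ℕ) (x : Fin n → StrongDual ℝ E),
      (∀ z : E, ‖z‖ ≤ 1 → ∑ i, |x i z| ≤ 1) ∧ r = ∑ i, |f.fn (x i)|} ‖f‖) ∧
    (Daugavet E → Octahedral (FBL E).Space) ∧
    (Octahedral E → Octahedral (FBL E).Space) := by
  obtain ⟨e⟩ := hpre
  refine ⟨fun f c u hc => fn_posHom f hc u, fbl_norm_isLUB, fun hD => ?_, fun hO => ?_⟩
  · exact (octTuple_FBL e (octTuple_of_daugavet hD).octahedral).octahedral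
  · exact (octTuple_FBL e hO).octahedral

end Pool.Agent.Results.MP_93c18e_an.FBLOctahedral
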